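import Pool.Agent.Helper563.Dom.Defs
import Pool.Agent.Helper563.Dom.Ex

set_option autoImplicit false

/-!
Q2 of MP_d05361_an is answered in the negative: there are closed `z`-invariant subspaces `I ⊆ J` of
the Bergman space of the disc, `I` containing a function not vanishing at `0`, whose extremal
functions `H_I`, `H_J` satisfy `‖H_I h‖ < ‖H_J h‖` for some polynomial `h`.

Idea. `J` has index at least two (constructed from three explicit recursively defined sequences, see
`Seq.lean`). Then `J ⊖ zJ` contains, besides `H = H_J`, a unit vector `K` orthogonal to `H`, and for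
real `c, s` with `c² + s² = 1`, `c > 0` and `|ω| = 1` the space `I = J ∩ (s H - c ω K)^⊥` is invariant
with extremal function `G = c H + s ω K`. If `H_I` dominated `H_J` for all these `I`, letting `s → 0`
would give `∫ |h|² H conj(K) dA = 0` for all polynomials `h`, hence `H conj(K) = 0`, a contradiction.
-/

namespace Pool.Agent.Results.MP_d05361_an.DominationFails

open Pool.Agent.H563Dom

theorem result : ∃ I J : Set (ℂ → ℂ), IsInvSubspace I ∧ IsInvSubspace J ∧ I ⊆ J ∧
    (∃ f ∈ I, f 0 ≠ 0) ∧ ∃ HI HJ : ℂ → ℂ, IsExtremal I HI ∧ IsExtremal J HJ ∧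
      ∃ h : Polynomial ℂ, MemBergman (fun z => h.eval z) ∧
        normSq (fun z => HI z * h.eval z) < normSq (fun z => HJ z * h.eval z) :=
  main

end Pool.Agent.Results.MP_d05361_an.DominationFails
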